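import Mathlib

set_option autoImplicit false

namespace Pool.Agent.KS6_53.St

open Finset Filter Topology

section pattern

variable {q : ℕ} [Fact q.Prime] (I : Finset (ZMod q))

/-- the number of the elements of `B` which cover the pair -/
def X (B : Finset (ZMod q)) (z : ZMod q × ZMod q) : ℕ := (B.filter fun b => z.2 - (z.1 - b) ^ 2 ∈ I).card

theorem card_one (b : ZMod q) :
    (univ.filter fun z : ZMod q × ZMod q => z.2 - (z.1 - b) ^ 2 ∈ I).card = q * I.card := by
  have h : (univ.filter fun z : ZMod q × ZMod q => z.2 - (z.1 - b) ^ 2 ∈ I).card =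
      ((univ : Finset (ZMod q)) ×ˢ I).card := by
    refine Finset.card_bij (fun z _ => (z.1, z.2 - (z.1 - b) ^ 2)) ?_ ?_ ?_
    · intro z hz
      rw [Finset.mem_filter] at hz
      rw [Finset.mem_product]
      exact ⟨Finset.mem_univ _, hz.2⟩
    · rintro ⟨x, y⟩ _ ⟨x', y'⟩ _ h
      simp only [Prod.mk.injEq] at h
      obtain ⟨rfl, h2⟩ := h
      rw [Prod.mk.injEq]
      exact ⟨rfl, sub_left_injective h2⟩
    · rintro ⟨x, u⟩ hu
      rw [Finset.mem_product] at hu
      refine ⟨(x, u + (x - b) ^ 2), ?_, ?_⟩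
      · rw [Finset.mem_filter]
        refine ⟨Finset.mem_univ _, ?_⟩
        simpa using hu.2
      · simp
  rw [h, Finset.card_product, Finset.card_univ, ZMod.card]

theorem card_two (hq : q ≠ 2) {b b' : ZMod q} (hb : b ≠ b') :
    (univ.filter fun z : ZMod q × ZMod q => z.2 - (z.1 - b) ^ 2 ∈ I ∧ z.2 - (z.1 - b') ^ 2 ∈ I).card =
      I.card * I.card := by
  have h2 : (2 : ZMod q) ≠ 0 := by
    intro h
    have h3 : ((2 : ℕ) : ZMod q) = 0 := by exact_mod_cast h
    rw [ZMod.natCast_eq_zero_iff] at h3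
    exact hq ((Nat.prime_dvd_prime_iff_eq (Fact.out : q.Prime) Nat.prime_two).1 h3)
  have h4 : (2 : ZMod q) * (b - b') ≠ 0 := mul_ne_zero h2 (sub_ne_zero.2 hb)
  have h : (univ.filter fun z : ZMod q × ZMod q => z.2 - (z.1 - b) ^ 2 ∈ I ∧ z.2 - (z.1 - b') ^ 2 ∈ I).card =
      (I ×ˢ I).card := by
    refine Finset.card_bij (fun z _ => (z.2 - (z.1 - b) ^ 2, z.2 - (z.1 - b') ^ 2)) ?_ ?_ ?_
    · intro z hz
      rw [Finset.mem_filter] at hz
      rw [Finset.mem_product]
      exact hz.2
    · rintro ⟨x, y⟩ _ ⟨x', y'⟩ _ h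
      simp only [Prod.mk.injEq] at h
      obtain ⟨h5, h6⟩ := h
      have h7 : 2 * (b - b') * (x - x') = 0 := by linear_combination h5 - h6
      have h8 : x = x' := sub_eq_zero.1 ((mul_eq_zero.1 h7).resolve_left h4)
      subst h8
      rw [Prod.mk.injEq]
      exact ⟨rfl, sub_left_injective h5⟩
    · rintro ⟨u, v⟩ huv
      rw [Finset.mem_product] at huv
      -- v - u = (x-b)^2 - (x-b')^2 = -2x(b-b') + b^2 - b'^2
      set x : ZMod q := (u - v + b ^ 2 - b' ^ 2) * (2 * (b - b'))⁻¹ with hx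
      have h5 : 2 * (b - b') * x = u - v + b ^ 2 - b' ^ 2 := by
        rw [hx, mul_comm, mul_assoc, inv_mul_cancel₀ h4, mul_one]
      refine ⟨(x, u + (x - b) ^ 2), ?_, ?_⟩
      · rw [Finset.mem_filter]
        refine ⟨Finset.mem_univ _, ?_, ?_⟩
        · simpa using huv.1
        · have : u + (x - b) ^ 2 - (x - b') ^ 2 = v := by linear_combination -h5
          simp only
          rw [this]
          exact huv.2
      · have : u + (x - b) ^ 2 - (x - b') ^ 2 = v := by linear_combination -h5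
        simp [this]
  rw [h, Finset.card_product]

/-- second moment -/
theorem card_zero (hq : q ≠ 2) (B : Finset (ZMod q)) :
    ((univ.filter fun z => X I B z = 0).card : ℝ) * (B.card * I.card) ≤ (q : ℝ) ^ 3 := by
  classical
  set k : ℝ := ((B.card : ℕ) : ℝ) with hk
  set s : ℝ := ((I.card : ℕ) : ℝ) with hs
  have hq0 : (0 : ℝ) < q := by exact_mod_cast (Fact.out : q.Prime).pos
  rcases eq_or_lt_of_le (show 0 ≤ k * s by positivity) with h0 | h0
  · rw [← h0, mul_zero]
    positivity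
  set f : ZMod q → ZMod q × ZMod q → ℝ := fun b z => if z.2 - (z.1 - b) ^ 2 ∈ I then 1 else 0 with hf
  have hX : ∀ z, (X I B z : ℝ) = ∑ b ∈ B, f b z := by
    intro z
    rw [X, hf, ← Finset.sum_filter, Finset.sum_const, nsmul_eq_mul, mul_one]
  have h1 : ∀ b, ∑ z, f b z = q * s := by
    intro b
    simp only [hf]
    rw [← Finset.sum_filter, Finset.sum_const, nsmul_eq_mul, mul_one, card_one I b]
    push_cast
    rfl
  have h2 : ∀ b b', b ≠ b' → ∑ z, f b z * f b' z = s * s := by
    intro b b' hb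
    have : ∀ z, f b z * f b' z = if z.2 - (z.1 - b) ^ 2 ∈ I ∧ z.2 - (z.1 - b') ^ 2 ∈ I then (1 : ℝ) else 0 := by
      intro z
      simp only [hf]
      split_ifs <;> simp_all
    rw [Finset.sum_congr rfl fun z _ => this z, ← Finset.sum_filter, Finset.sum_const, nsmul_eq_mul,
      mul_one, card_two I hq hb]
    push_cast
    rfl
  have h3 : ∀ b, ∑ z, f b z * f b z = q * s := by
    intro b
    rw [← h1 b]
    refine Finset.sum_congr rfl fun z _ => ?_
    simp only [hf]
    split_ifs <;> simp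
  have hs1 : ∑ z, (X I B z : ℝ) = k * (q * s) := by
    simp only [hX]
    rw [Finset.sum_comm, Finset.sum_congr rfl fun b _ => h1 b, Finset.sum_const, nsmul_eq_mul]
  have hs2 : ∑ z, (X I B z : ℝ) ^ 2 ≤ k * (q * s) + k * k * (s * s) := by
    have e1 : ∀ z, (X I B z : ℝ) ^ 2 = ∑ b ∈ B, ∑ b' ∈ B, f b z * f b' z := by
      intro z
      rw [hX, sq, Finset.sum_mul_sum]
    simp only [e1]
    rw [Finset.sum_comm]
    have e2 : ∀ b ∈ B, ∑ z, ∑ b' ∈ B, f b z * f b' z ≤ q * s + k * (s * s) := by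
      intro b hb
      rw [Finset.sum_comm, ← Finset.add_sum_erase _ _ hb, h3]
      have e3 : ∑ b' ∈ B.erase b, ∑ z, f b z * f b' z = ∑ b' ∈ B.erase b, s * s :=
        Finset.sum_congr rfl fun b' hb' => h2 b b' (Finset.ne_of_mem_erase hb').symm
      rw [e3, Finset.sum_const, nsmul_eq_mul]
      have e4 : (((B.erase b).card : ℕ) : ℝ) ≤ k := by
        rw [hk]
        exact Nat.cast_le.2 (Finset.card_le_card (Finset.erase_subset _ _))
      have := mul_le_mul_of_nonneg_right e4 (show 0 ≤ s * s by positivity)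
      linarith
    refine (Finset.sum_le_sum e2).trans ?_
    rw [Finset.sum_const, nsmul_eq_mul]
    apply le_of_eq
    ring
  set μ : ℝ := k * s / q with hμ
  have hμ0 : 0 < μ := by positivity
  have hcard : (∑ _z : ZMod q × ZMod q, (1 : ℝ)) = q ^ 2 := by
    rw [Finset.sum_const, Finset.card_univ, Fintype.card_prod, ZMod.card, nsmul_eq_mul, mul_one]
    push_cast
    ring
  have hvar : ∑ z, ((X I B z : ℝ) - μ) ^ 2 ≤ k * (q * s) := by
    have e1 : ∀ z, ((X I B z : ℝ) - μ) ^ 2 = (X I B z : ℝ) ^ 2 - 2 * μ * (X I B z : ℝ) + μ ^ 2 * 1 := by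
      intro z
      ring
    simp only [e1]
    rw [Finset.sum_add_distrib, Finset.sum_sub_distrib, ← Finset.mul_sum, ← Finset.mul_sum, hs1, hcard]
    have e2 : μ ^ 2 * (q : ℝ) ^ 2 = k * k * (s * s) := by
      rw [hμ]
      field_simp
    have e3 : 2 * μ * (k * (q * s)) = 2 * (k * k * (s * s)) := by
      rw [hμ]
      field_simp
    rw [e2, e3]
    linarith
  have hz : ((univ.filter fun z => X I B z = 0).card : ℝ) * μ ^ 2 ≤ ∑ z, ((X I B z : ℝ) - μ) ^ 2 := by
    rw [← nsmul_eq_mul, ← Finset.sum_const]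
    refine le_trans (Finset.sum_le_sum fun z hz => ?_) (Finset.sum_le_sum_of_subset_of_nonneg
      (Finset.filter_subset _ _) fun z _ _ => sq_nonneg _)
    rw [Finset.mem_filter] at hz
    rw [hz.2]
    apply le_of_eq
    push_cast
    ring
  have h5 := hz.trans hvar
  have h6 : μ ^ 2 = (k * s) * ((k * s) / q ^ 2) := by
    rw [hμ]
    field_simp
  rw [h6, ← mul_assoc] at h5
  have h7 : ((univ.filter fun z => X I B z = 0).card : ℝ) * (k * s) * ((k * s) / q ^ 2) ≤
      q ^ 3 * ((k * s) / q ^ 2) := by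
    refine h5.trans ?_
    apply le_of_eq
    field_simp
  exact le_of_mul_le_mul_right h7 (by positivity)

end pattern

end Pool.Agent.KS6_53.St
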