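import Pool.Agent.KS6_53.St.S1

set_option autoImplicit false

namespace Pool.Agent.KS6_53.St

open Finset Filter Topology

/-- periodic sets -/
theorem card_Ico_le_of_periodic (L : ℕ) (hL : 0 < L) (p : ℕ → Prop) [DecidablePred p]
    (hp : Function.Periodic p L) (a m : ℕ) :
    (((Finset.Ico a m).filter p).card : ℝ) ≤ (L.count p : ℝ) * ((m - a : ℕ) / L + 1) := by
  have h1 : ∀ t : ℕ, ((Finset.Ico a (a + L * t)).filter p).card = L.count p * t := by
    intro t
    induction t with
    | zero => simp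
    | succ t ih =>
      have e : Finset.Ico a (a + L * (t + 1)) = Finset.Ico a (a + L * t) ∪ Finset.Ico (a + L * t) (a + L * t + L) := by
        rw [Finset.Ico_union_Ico_eq_Ico (by omega) (by omega)]
        congr 1
        ring
      rw [e, Finset.filter_union, Finset.card_union_of_disjoint, ih, Nat.filter_Ico_card_eq_of_periodic _ _ _ hp]
      · ring
      · exact Finset.disjoint_filter_filter (Finset.Ico_disjoint_Ico_consecutive _ _ _)
  set t : ℕ := (m - a) / L + 1 with ht
  have h2 : m ≤ a + L * t := by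
    have := Nat.lt_mul_div_succ (m - a) hL
    have e : L * ((m - a) / L + 1) = L * t := by rw [ht]
    omega
  have h3 : ((Finset.Ico a m).filter p).card ≤ L.count p * t := by
    rw [← h1 t]
    exact Finset.card_le_card (Finset.filter_subset_filter _ (Finset.Ico_subset_Ico_right h2))
  have h4 : (((m - a) / L : ℕ) : ℝ) ≤ ((m - a : ℕ) : ℝ) / L := Nat.cast_div_le
  calc (((Finset.Ico a m).filter p).card : ℝ) ≤ ((L.count p * t : ℕ) : ℝ) := by exact_mod_cast h3
    _ = (L.count p : ℝ) * ((((m - a) / L : ℕ) : ℝ) + 1) := by rw [ht]; push_cast; ring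
    _ ≤ _ := by
      refine mul_le_mul_of_nonneg_left ?_ (Nat.cast_nonneg _)
      linarith

section

variable {q : ℕ} [Fact q.Prime]

/-- the pair attached to a natural number -/
def pr (q n : ℕ) : ZMod q × ZMod q := (((n % q : ℕ) : ZMod q), ((n / q : ℕ) : ZMod q))

/-- the pattern -/
def Pat (I : Finset (ZMod q)) (n : ℕ) : Prop := (pr q n).2 - (pr q n).1 ^ 2 ∈ I

theorem pr_add (n : ℕ) : pr q (n + q * q) = pr q n := by
  have hq : 0 < q := (Fact.out : q.Prime).pos
  unfold pr
  rw [Nat.add_mul_mod_self_left, Nat.add_mul_div_left _ _ hq]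
  push_cast
  simp

theorem pr_sub {n b : ℕ} (h : b ≤ n % q) : pr q (n - b) = ((pr q n).1 - (b : ZMod q), (pr q n).2) := by
  have hq : 0 < q := (Fact.out : q.Prime).pos
  have hlt := Nat.mod_lt n hq
  have e : n - b = (n % q - b) + q * (n / q) := by
    have := Nat.mod_add_div n q
    omega
  unfold pr
  have e1 : (n - b) % q = n % q - b := by
    rw [e, Nat.add_mul_mod_self_left, Nat.mod_eq_of_lt (by omega)]
  have e2 : (n - b) / q = n / q := by
    rw [e, Nat.add_mul_div_left _ _ hq, Nat.div_eq_of_lt (by omega), zero_add]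
  rw [e1, e2]
  rw [Nat.cast_sub h]

theorem pr_inj {n m : ℕ} (hn : n < q * q) (hm : m < q * q) (h : pr q n = pr q m) : n = m := by
  have hq : 0 < q := (Fact.out : q.Prime).pos
  unfold pr at h
  rw [Prod.mk.injEq] at h
  obtain ⟨h1, h2⟩ := h
  rw [ZMod.natCast_eq_natCast_iff'] at h1 h2
  rw [Nat.mod_mod, Nat.mod_mod] at h1
  rw [Nat.mod_eq_of_lt (Nat.div_lt_of_lt_mul hn), Nat.mod_eq_of_lt (Nat.div_lt_of_lt_mul hm)] at h2
  rw [← Nat.mod_add_div n q, ← Nat.mod_add_div m q, h1, h2]

/-- a set of pairs gives a periodic set -/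
theorem count_pr_le (p : ZMod q × ZMod q → Prop) [DecidablePred p] :
    (q * q).count (fun n => p (pr q n)) ≤ (univ.filter p).card := by
  rw [Nat.count_eq_card_filter_range]
  refine Finset.card_le_card_of_injOn (fun n => pr q n) ?_ ?_
  · intro n hn
    rw [Finset.mem_coe, Finset.mem_filter] at hn
    rw [Finset.mem_coe, Finset.mem_filter]
    exact ⟨Finset.mem_univ _, hn.2⟩
  · intro n hn m hm h
    rw [Finset.mem_coe, Finset.mem_filter, Finset.mem_range] at hn hm
    exact pr_inj hn.1 hm.1 h

theorem count_mod_le (M : ℕ) (hM : M ≤ q) : (q * q).count (fun n => n % q < M) ≤ M * q := by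
  have hq : 0 < q := (Fact.out : q.Prime).pos
  rw [Nat.count_eq_card_filter_range]
  have : ((Finset.range (q * q)).filter fun n => n % q < M).card ≤ (Finset.range M ×ˢ Finset.range q).card := by
    refine Finset.card_le_card_of_injOn (fun n => (n % q, n / q)) ?_ ?_
    · intro n hn
      rw [Finset.mem_coe, Finset.mem_filter, Finset.mem_range] at hn
      rw [Finset.mem_coe, Finset.mem_product, Finset.mem_range, Finset.mem_range]
      exact ⟨hn.2, Nat.div_lt_of_lt_mul hn.1⟩
    · intro n hn m hm h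
      simp only [Prod.mk.injEq] at h
      rw [← Nat.mod_add_div n q, ← Nat.mod_add_div m q, h.1, h.2]
  rwa [Finset.card_product, Finset.card_range, Finset.card_range] at this

/-- the bad set of a level -/
def Bad (I B : Finset (ZMod q)) (M : ℕ) (n : ℕ) : Prop := n % q < M ∨ X I B (pr q n) = 0

theorem bad_card (I B : Finset (ZMod q)) (M : ℕ) (hM : M ≤ q) (hq2 : q ≠ 2) (hBI : 0 < B.card * I.card)
    (a m : ℕ) [DecidablePred (Bad I B M)] :
    (((Finset.Ico a m).filter (Bad I B M)).card : ℝ) ≤
      (M * q + (q : ℝ) ^ 3 / (B.card * I.card)) * ((m - a : ℕ) / (q : ℝ) ^ 2 + 1) := by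
  have hq : 0 < q := (Fact.out : q.Prime).pos
  have hper : Function.Periodic (Bad I B M) (q * q) := by
    intro n
    unfold Bad
    rw [pr_add, Nat.add_mul_mod_self_left]
  have h1 := card_Ico_le_of_periodic (q * q) (Nat.mul_pos hq hq) (Bad I B M) hper a m
  have h2 : (((q * q).count (Bad I B M) : ℕ) : ℝ) ≤ M * q + (q : ℝ) ^ 3 / (B.card * I.card) := by
    have e1 : (q * q).count (Bad I B M) ≤ (q * q).count (fun n => n % q < M) +
        (q * q).count (fun n => X I B (pr q n) = 0) := by
      rw [Nat.count_eq_card_filter_range, Nat.count_eq_card_filter_range, Nat.count_eq_card_filter_range]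
      refine le_trans (Finset.card_le_card ?_) (Finset.card_union_le _ _)
      intro n hn
      rw [Finset.mem_filter] at hn
      rw [Finset.mem_union, Finset.mem_filter, Finset.mem_filter]
      rcases hn.2 with h | h
      · exact Or.inl ⟨hn.1, h⟩
      · exact Or.inr ⟨hn.1, h⟩
    have e2 := count_mod_le (q := q) M hM
    have e3 := count_pr_le (q := q) (fun z => X I B z = 0)
    have e4 := card_zero I hq2 B
    have e5 : ((univ.filter fun z => X I B z = 0).card : ℝ) ≤ (q : ℝ) ^ 3 / (B.card * I.card) := by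
      rw [le_div_iff₀ (by exact_mod_cast hBI)]
      exact e4
    calc (((q * q).count (Bad I B M) : ℕ) : ℝ) ≤ ((M * q + (univ.filter fun z => X I B z = 0).card : ℕ) : ℝ) := by
          exact_mod_cast e1.trans (Nat.add_le_add e2 e3)
      _ = M * q + ((univ.filter fun z => X I B z = 0).card : ℝ) := by push_cast; ring
      _ ≤ _ := by linarith
  refine h1.trans ?_
  have e : (((q * q : ℕ) : ℕ) : ℝ) = (q : ℝ) ^ 2 := by push_cast; ring
  rw [e]
  exact mul_le_mul_of_nonneg_right h2 (by positivity)

theorem pat_card (I : Finset (ZMod q)) (a m : ℕ) [DecidablePred (Pat I)] :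
    (((Finset.Ico a m).filter (Pat I)).card : ℝ) ≤
      (q * I.card : ℝ) * ((m - a : ℕ) / (q : ℝ) ^ 2 + 1) := by
  have hq : 0 < q := (Fact.out : q.Prime).pos
  have hper : Function.Periodic (Pat I) (q * q) := by
    intro n
    unfold Pat
    rw [pr_add]
  have h1 := card_Ico_le_of_periodic (q * q) (Nat.mul_pos hq hq) (Pat I) hper a m
  have h2 : (((q * q).count (Pat I) : ℕ) : ℝ) ≤ q * I.card := by
    have e1 : (q * q).count (Pat I) = (q * q).count (fun n => (fun z : ZMod q × ZMod q => z.2 - z.1 ^ 2 ∈ I) (pr q n)) := by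
      rw [Nat.count_eq_card_filter_range, Nat.count_eq_card_filter_range]
      refine congrArg Finset.card (Finset.filter_congr fun n _ => Iff.rfl)
    have e2 := count_pr_le (q := q) (fun z : ZMod q × ZMod q => z.2 - z.1 ^ 2 ∈ I)
    have e3 := card_one I (0 : ZMod q)
    simp only [sub_zero] at e3
    rw [e1]
    rw [e3] at e2
    exact_mod_cast e2
  refine h1.trans ?_
  have e : (((q * q : ℕ) : ℕ) : ℝ) = (q : ℝ) ^ 2 := by push_cast; ring
  rw [e]
  exact mul_le_mul_of_nonneg_right h2 (by positivity)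

/-- a number which is not bad is covered -/
theorem covered_of_not_bad (I : Finset (ZMod q)) (B : Finset ℕ) (M : ℕ) (hB : ∀ b ∈ B, b ≤ M) {n : ℕ}
    (h : ¬ Bad I (B.image fun b : ℕ => (b : ZMod q)) M n) : ∃ b ∈ B, Pat I (n - b) := by
  unfold Bad at h
  push Not at h
  obtain ⟨h1, h2⟩ := h
  unfold X at h2
  obtain ⟨c, hc⟩ := Finset.card_pos.1 (Nat.pos_of_ne_zero h2)
  rw [Finset.mem_filter, Finset.mem_image] at hc
  obtain ⟨⟨b, hb, rfl⟩, hc⟩ := hc
  refine ⟨b, hb, ?_⟩
  unfold Pat
  rw [pr_sub ((hB b hb).trans h1)]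
  exact hc

end

end Pool.Agent.KS6_53.St
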