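import Pool.Agent.KS6_53.St.S2

set_option autoImplicit false

namespace Pool.Agent.KS6_53.St

open Finset Filter Topology
open scoped Pointwise

theorem block (S : ℕ → Prop) [DecidablePred S] (N : ℕ → ℕ) (θ : ℝ) (e : ℕ → ℝ)
    (he : ∀ j, 0 ≤ e j) (hN : Monotone N) (J : ℕ)
    (h : ∀ j, J ≤ j → ∀ n, N j ≤ n → n ≤ N (j + 1) →
      (((Finset.Ico (N j) n).filter S).card : ℝ) ≤ θ * ((n : ℝ) - N j) + e j) :
    ∀ j, J ≤ j → ∀ n, N j ≤ n → n ≤ N (j + 1) →
      (((Finset.range n).filter S).card : ℝ) ≤ (((Finset.range (N J)).filter S).card : ℝ) +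
        θ * ((n : ℝ) - N J) + ∑ i ∈ Finset.range (j + 1), e i := by
  have split : ∀ a n : ℕ, a ≤ n → (((Finset.range n).filter S).card : ℝ) =
      (((Finset.range a).filter S).card : ℝ) + (((Finset.Ico a n).filter S).card : ℝ) := by
    intro a n han
    have e1 : Finset.range n = Finset.range a ∪ Finset.Ico a n := by
      rw [Finset.range_eq_Ico, Finset.range_eq_Ico, Finset.Ico_union_Ico_eq_Ico (Nat.zero_le _) han]
    rw [e1, Finset.filter_union, Finset.card_union_of_disjoint]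
    · push_cast
      rfl
    · rw [Finset.range_eq_Ico]
      exact Finset.disjoint_filter_filter (Finset.Ico_disjoint_Ico_consecutive _ _ _)
  intro j hj
  induction j, hj using Nat.le_induction with
  | base =>
    intro n h1 h2
    rw [split (N J) n h1]
    have h3 := h J le_rfl n h1 h2
    have h4 : e J ≤ ∑ i ∈ Finset.range (J + 1), e i :=
      Finset.single_le_sum (fun i _ => he i) (Finset.mem_range.2 (Nat.lt_succ_self J))
    linarith
  | succ j hj ih =>
    intro n h1 h2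
    rw [split (N (j + 1)) n h1]
    have h3 := h (j + 1) (by omega) n h1 h2
    have h4 := ih (N (j + 1)) (hN (by omega)) le_rfl
    rw [Finset.sum_range_succ]
    linarith

/-- the data of a level -/
structure Lev (g : ℕ → ℕ) (C j : ℕ) where
  M : ℕ
  q : ℕ
  hp : Fact q.Prime
  h2 : q ≠ 2
  hM : (j + 1) * C ≤ g M
  hq : C * M ≤ q
  hMq : M < q
  hj : j + 1 ≤ q
  I : Finset (ZMod q)
  hI1 : q ≤ (j + 1) * I.card
  hI2 : (j + 1) * I.card ≤ 2 * q

instance {g : ℕ → ℕ} {C j : ℕ} (l : Lev g C j) : Fact l.q.Prime := l.hp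

theorem exists_lev (g : ℕ → ℕ) (hg : Tendsto g atTop atTop) (C j : ℕ) : Nonempty (Lev g C j) := by
  obtain ⟨M, hM⟩ := (hg.eventually (eventually_ge_atTop ((j + 1) * C))).exists
  obtain ⟨q, hq1, hq2⟩ := Nat.exists_infinite_primes (C * M + M + j + 3)
  have : Fact q.Prime := ⟨hq2⟩
  have hs : (q + j) / (j + 1) ≤ Fintype.card (ZMod q) := by
    rw [ZMod.card]
    refine Nat.div_le_of_le_mul ?_
    have : j * 1 ≤ j * q := Nat.mul_le_mul_left j hq2.one_lt.le
    nlinarith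
  obtain ⟨I, -, hI⟩ := Finset.exists_subset_card_eq (s := (Finset.univ : Finset (ZMod q)))
    (n := (q + j) / (j + 1)) (by rwa [Finset.card_univ])
  refine ⟨⟨M, q, ⟨hq2⟩, by omega, hM, by omega, by omega, by omega, I, ?_, ?_⟩⟩
  · rw [hI]
    have := Nat.lt_mul_div_succ (q + j) (Nat.succ_pos j)
    have e : (j + 1) * ((q + j) / (j + 1) + 1) = (j + 1) * ((q + j) / (j + 1)) + (j + 1) := by ring
    simp only [Nat.succ_eq_add_one] at this
    omega
  · rw [hI]
    have := Nat.mul_div_le (q + j) (j + 1)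
    omega

section

variable {g : ℕ → ℕ} {C : ℕ} (L : ∀ j, Lev g C j)

/-- the total loss of the levels up to `j` -/
def W (j : ℕ) : ℕ := ∑ i ∈ Finset.range (j + 1), ((L i).M + (L i).q ^ 2)

/-- the beginning of the level `j` -/
def NN (j : ℕ) : ℕ := C * (j + 1) * W L j

/-- the sequence -/
def AA : Set ℕ := {n | n < NN L 0 ∨ ∃ j, NN L j ≤ n ∧ n < NN L (j + 1) ∧ Pat (L j).I n}

variable {L}

theorem W_mono : Monotone (W L) := by
  intro i j hij
  unfold W
  exact Finset.sum_le_sum_of_subset (Finset.range_mono (by omega))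

theorem W_pos (j : ℕ) : 9 ≤ W L j := by
  have h1 : 3 ≤ (L 0).q := by
    have := (L 0).hp.out.two_le
    have := (L 0).h2
    omega
  have h2 : (L 0).M + (L 0).q ^ 2 ≤ W L j :=
    Finset.single_le_sum (f := fun i => (L i).M + (L i).q ^ 2) (fun i _ => Nat.zero_le _)
      (Finset.mem_range.2 (Nat.succ_pos j))
  nlinarith

theorem NN_mono : Monotone (NN L) := by
  intro i j hij
  unfold NN
  exact Nat.mul_le_mul (Nat.mul_le_mul_left C (by omega)) (W_mono hij)

theorem NN_ge (hC : 1 ≤ C) (j : ℕ) : j + 9 ≤ NN L j := by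
  unfold NN
  have h1 := W_pos (L := L) j
  have h2 : 1 * (j + 1) ≤ C * (j + 1) := Nat.mul_le_mul_right _ hC
  have h3 : (1 * (j + 1)) * 9 ≤ C * (j + 1) * W L j := Nat.mul_le_mul h2 h1
  omega

theorem exists_level (hC : 1 ≤ C) {J n : ℕ} (hn : NN L J ≤ n) :
    ∃ j, J ≤ j ∧ NN L j ≤ n ∧ n < NN L (j + 1) := by
  have h1 : ∃ j, n < NN L (j + 1) := ⟨n, by have := NN_ge (L := L) hC (n + 1); omega⟩
  classical
  refine ⟨Nat.find h1, ?_, ?_, Nat.find_spec h1⟩
  · by_contra h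
    push Not at h
    have h2 := Nat.find_spec h1
    have h3 := NN_mono (L := L) (show Nat.find h1 + 1 ≤ J by omega)
    omega
  · rcases Nat.eq_zero_or_pos (Nat.find h1) with h | h
    · rw [h]
      exact (NN_mono (Nat.zero_le J)).trans hn
    · have h2 := Nat.find_min h1 (Nat.sub_lt h Nat.one_pos)
      rw [Nat.sub_add_cancel h] at h2
      omega

theorem sum_e (hC : 1 ≤ C) (j : ℕ) :
    ∑ i ∈ Finset.range (j + 1), (((L i).M : ℝ) + ((L i).q : ℝ) ^ 2) = NN L j / (C * (j + 1)) := by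
  have hC' : (0 : ℝ) < C := by exact_mod_cast hC
  rw [eq_div_iff (by positivity)]
  unfold NN W
  push_cast
  ring

open scoped Classical in
/-- the uncovered numbers of a level -/
theorem uncovered_level (hC : 2 ≤ C) (B : Set ℕ)
    (hB : ∀ n, g n ≤ ((Finset.Ioc 0 n).filter (· ∈ B)).card) (j n : ℕ) (h1 : NN L j ≤ n)
    (h2 : n ≤ NN L (j + 1)) :
    (((Finset.Ico (NN L j) n).filter fun x => x ∉ AA L + B).card : ℝ) ≤
      2 / C * ((n : ℝ) - NN L j) + (((L j).M : ℝ) + ((L j).q : ℝ) ^ 2) := by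
  have hC' : (0 : ℝ) < C := by exact_mod_cast (by omega : 0 < C)
  set l := L j with hl
  set B0 : Finset ℕ := (Finset.Ioc 0 l.M).filter (· ∈ B) with hB0
  set B1 : Finset (ZMod l.q) := B0.image fun b : ℕ => (b : ZMod l.q) with hB1
  have hq0 : (0 : ℝ) < l.q := by exact_mod_cast l.hp.out.pos
  have hc1 : B1.card = B0.card := by
    rw [hB1]
    refine Finset.card_image_of_injOn ?_
    intro x hx y hy hxy
    rw [hB0, Finset.mem_coe, Finset.mem_filter, Finset.mem_Ioc] at hx hy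
    simp only at hxy
    rw [ZMod.natCast_eq_natCast_iff', Nat.mod_eq_of_lt (hx.1.2.trans_lt l.hMq),
      Nat.mod_eq_of_lt (hy.1.2.trans_lt l.hMq)] at hxy
    exact hxy
  have hc2 : (j + 1) * C ≤ B1.card := by
    rw [hc1]
    exact l.hM.trans (hB l.M)
  have hc3 : C * l.q ≤ B1.card * l.I.card := by
    calc C * l.q ≤ C * ((j + 1) * l.I.card) := Nat.mul_le_mul_left _ l.hI1
      _ = ((j + 1) * C) * l.I.card := by ring
      _ ≤ _ := Nat.mul_le_mul_right _ hc2
  have hc4 : 0 < B1.card * l.I.card := lt_of_lt_of_le (Nat.mul_pos (by omega) l.hp.out.pos) hc3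
  have hbad := bad_card l.I B1 l.M l.hMq.le l.h2 hc4 (NN L j) n
  have hsub : ((Finset.Ico (NN L j) n).filter fun x => x ∉ AA L + B) ⊆
      Finset.Ico (NN L j) (NN L j + l.M) ∪ ((Finset.Ico (NN L j) n).filter (Bad l.I B1 l.M)) := by
    intro x hx
    rw [Finset.mem_filter, Finset.mem_Ico] at hx
    rw [Finset.mem_union, Finset.mem_filter, Finset.mem_Ico, Finset.mem_Ico]
    by_contra hcon
    push Not at hcon
    obtain ⟨h3, h4⟩ := hcon
    have h5 := h3 hx.1.1
    obtain ⟨b, hb, hp⟩ := covered_of_not_bad l.I B0 l.M (fun b hb => by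
      rw [hB0, Finset.mem_filter, Finset.mem_Ioc] at hb
      exact hb.1.2) (h4 hx.1)
    rw [hB0, Finset.mem_filter, Finset.mem_Ioc] at hb
    refine hx.2 ⟨x - b, ?_, b, hb.2, by simp only; omega⟩
    exact Or.inr ⟨j, by omega, by omega, hp⟩
  have h6 : (((Finset.Ico (NN L j) n).filter fun x => x ∉ AA L + B).card : ℝ) ≤
      l.M + (((Finset.Ico (NN L j) n).filter (Bad l.I B1 l.M)).card : ℝ) := by
    have h7 := (Finset.card_le_card hsub).trans (Finset.card_union_le _ _)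
    rw [Nat.card_Ico, Nat.add_sub_cancel_left] at h7
    exact_mod_cast h7
  have h8 : (l.M * l.q + (l.q : ℝ) ^ 3 / (B1.card * l.I.card)) ≤ 2 / C * (l.q : ℝ) ^ 2 := by
    have e1 : (l.M : ℝ) * l.q ≤ 1 / C * (l.q : ℝ) ^ 2 := by
      rw [one_div, ← div_eq_inv_mul, le_div_iff₀ hC']
      have : (C : ℝ) * l.M ≤ l.q := by exact_mod_cast l.hq
      nlinarith
    have e2 : (l.q : ℝ) ^ 3 / (B1.card * l.I.card) ≤ 1 / C * (l.q : ℝ) ^ 2 := by
      rw [div_le_iff₀ (by exact_mod_cast hc4)]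
      have : (C : ℝ) * l.q ≤ B1.card * l.I.card := by exact_mod_cast hc3
      calc (l.q : ℝ) ^ 3 = 1 / C * (l.q : ℝ) ^ 2 * (C * l.q) := by field_simp
        _ ≤ _ := mul_le_mul_of_nonneg_left this (by positivity)
    have e3 : (2 : ℝ) / C = 1 / C + 1 / C := by ring
    rw [e3, add_mul]
    linarith
  have hnn : ((n - NN L j : ℕ) : ℝ) = (n : ℝ) - NN L j := by
    rw [Nat.cast_sub h1]
  rw [hnn] at hbad
  have h9 : (0 : ℝ) ≤ ((n : ℝ) - NN L j) / (l.q : ℝ) ^ 2 + 1 := by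
    have : (0 : ℝ) ≤ (n : ℝ) - NN L j := by
      rw [sub_nonneg]
      exact_mod_cast h1
    positivity
  have h10 := mul_le_mul_of_nonneg_right h8 h9
  have h11 : 2 / C * (l.q : ℝ) ^ 2 * (((n : ℝ) - NN L j) / (l.q : ℝ) ^ 2 + 1) =
      2 / C * ((n : ℝ) - NN L j) + 2 / C * (l.q : ℝ) ^ 2 := by
    field_simp
  have h12 : (2 : ℝ) / C * (l.q : ℝ) ^ 2 ≤ (l.q : ℝ) ^ 2 := by
    have : (2 : ℝ) / C ≤ 1 := by
      rw [div_le_one hC']
      exact_mod_cast hC
    nlinarith [sq_nonneg (l.q : ℝ)]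
  linarith

open scoped Classical in
/-- the elements of the sequence in a level -/
theorem elements_level (j n : ℕ) (h1 : NN L j ≤ n) (h2 : n ≤ NN L (j + 1)) :
    (((Finset.Ico (NN L j) n).filter (· ∈ AA L)).card : ℝ) ≤
      2 / (j + 1) * ((n : ℝ) - NN L j) + 2 * (((L j).M : ℝ) + ((L j).q : ℝ) ^ 2) := by
  set l := L j with hl
  have hq0 : (0 : ℝ) < l.q := by exact_mod_cast l.hp.out.pos
  have hpat := pat_card l.I (NN L j) n
  have hsub : ((Finset.Ico (NN L j) n).filter (· ∈ AA L)) ⊆ ((Finset.Ico (NN L j) n).filter (Pat l.I)) := by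
    intro x hx
    rw [Finset.mem_filter, Finset.mem_Ico] at hx
    rw [Finset.mem_filter, Finset.mem_Ico]
    refine ⟨hx.1, ?_⟩
    rcases hx.2 with h | ⟨i, h3, h4, h5⟩
    · have := NN_mono (L := L) (Nat.zero_le j)
      omega
    · have : i = j := by
        rcases lt_trichotomy i j with h | h | h
        · have := NN_mono (L := L) (show i + 1 ≤ j by omega)
          omega
        · exact h
        · have := NN_mono (L := L) (show j + 1 ≤ i by omega)
          omega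
      subst this
      exact h5
  have h3 : (((Finset.Ico (NN L j) n).filter (· ∈ AA L)).card : ℝ) ≤
      (((Finset.Ico (NN L j) n).filter (Pat l.I)).card : ℝ) := by
    exact_mod_cast Finset.card_le_card hsub
  have h4 : (l.q * l.I.card : ℝ) ≤ 2 / (j + 1) * (l.q : ℝ) ^ 2 := by
    have : ((j : ℝ) + 1) * l.I.card ≤ 2 * l.q := by exact_mod_cast l.hI2
    rw [div_mul_eq_mul_div, le_div_iff₀ (by positivity)]
    nlinarith
  have hnn : ((n - NN L j : ℕ) : ℝ) = (n : ℝ) - NN L j := by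
    rw [Nat.cast_sub h1]
  rw [hnn] at hpat
  have h9 : (0 : ℝ) ≤ ((n : ℝ) - NN L j) / (l.q : ℝ) ^ 2 + 1 := by
    have : (0 : ℝ) ≤ (n : ℝ) - NN L j := by
      rw [sub_nonneg]
      exact_mod_cast h1
    positivity
  have h10 := mul_le_mul_of_nonneg_right h4 h9
  have h11 : 2 / ((j : ℝ) + 1) * (l.q : ℝ) ^ 2 * (((n : ℝ) - NN L j) / (l.q : ℝ) ^ 2 + 1) =
      2 / ((j : ℝ) + 1) * ((n : ℝ) - NN L j) + 2 / ((j : ℝ) + 1) * (l.q : ℝ) ^ 2 := by
    field_simp
  have h12 : 2 / ((j : ℝ) + 1) * (l.q : ℝ) ^ 2 ≤ 2 * (l.q : ℝ) ^ 2 := by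
    have : 2 / ((j : ℝ) + 1) ≤ 2 := by
      rw [div_le_iff₀ (by positivity)]
      nlinarith [(Nat.cast_nonneg j : (0 : ℝ) ≤ j)]
    nlinarith [sq_nonneg (l.q : ℝ)]
  have h13 : (0 : ℝ) ≤ 2 * (l.M : ℝ) := by positivity
  linarith

end

end Pool.Agent.KS6_53.St
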