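import Pool.Agent.KS6_53.St.S3

set_option autoImplicit false

namespace Pool.Agent.KS6_53.St

open Finset Filter Topology
open scoped Pointwise

section

variable {g : ℕ → ℕ} {C : ℕ} {L : ∀ j, Lev g C j}

open scoped Classical in
theorem elements_bound (hC : 1 ≤ C) (J n : ℕ) (hn : NN L J ≤ n) :
    (((Finset.range n).filter (· ∈ AA L)).card : ℝ) ≤ NN L J + 4 / (J + 1) * n := by
  obtain ⟨j, hj, h1, h2⟩ := exists_level (L := L) hC hn
  have hb := block (· ∈ AA L) (NN L) (2 / ((J : ℝ) + 1)) (fun j => 2 * (((L j).M : ℝ) + ((L j).q : ℝ) ^ 2))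
    (fun j => by positivity) NN_mono J (fun j hj n h1 h2 => by
      refine (elements_level j n h1 h2).trans ?_
      have e1 : (2 : ℝ) / (j + 1) ≤ 2 / (J + 1) := by
        apply div_le_div_of_nonneg_left (by norm_num) (by positivity)
        have : (J : ℝ) ≤ j := by exact_mod_cast hj
        linarith
      have e2 : (0 : ℝ) ≤ (n : ℝ) - NN L j := by
        rw [sub_nonneg]
        exact_mod_cast h1
      have := mul_le_mul_of_nonneg_right e1 e2
      linarith) j hj n h1 h2.le
  rw [← Finset.mul_sum, sum_e hC] at hb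
  have e1 : (((Finset.range (NN L J)).filter (· ∈ AA L)).card : ℝ) ≤ NN L J := by
    have := Finset.card_filter_le (Finset.range (NN L J)) (· ∈ AA L)
    rw [Finset.card_range] at this
    exact_mod_cast this
  have hj' : (J : ℝ) + 1 ≤ j + 1 := by
    have : (J : ℝ) ≤ j := by exact_mod_cast hj
    linarith
  have hC' : (1 : ℝ) ≤ C := by exact_mod_cast hC
  have e2 : (NN L j : ℝ) / (C * (j + 1)) ≤ n / (J + 1) := by
    apply div_le_div₀ (Nat.cast_nonneg _) (by exact_mod_cast h1) (by positivity)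
    nlinarith
  have e3 : 2 / ((J : ℝ) + 1) * ((n : ℝ) - NN L J) ≤ 2 / ((J : ℝ) + 1) * n := by
    refine mul_le_mul_of_nonneg_left ?_ (by positivity)
    have : (0 : ℝ) ≤ NN L J := Nat.cast_nonneg _
    linarith
  have e4 : 4 / ((J : ℝ) + 1) * n = 2 / ((J : ℝ) + 1) * n + 2 * (n / (J + 1)) := by ring
  rw [e4]
  linarith

open scoped Classical in
theorem zero_density (hC : 1 ≤ C) :
    Tendsto (fun n : ℕ => (((Finset.Ioc 0 n).filter (· ∈ AA L)).card : ℝ) / n) atTop (𝓝 0) := by
  rw [Metric.tendsto_atTop]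
  intro ε hε
  obtain ⟨J, hJ⟩ := exists_nat_gt (8 / ε)
  obtain ⟨n0, hn0⟩ := exists_nat_gt (2 * ((NN L J : ℝ) + 4) / ε)
  refine ⟨max (max n0 (NN L J)) 1, fun n hn => ?_⟩
  have h1 : n0 ≤ n := ((le_max_left _ _).trans (le_max_left _ _)).trans hn
  have h2 : NN L J ≤ n := ((le_max_right _ _).trans (le_max_left _ _)).trans hn
  have h3 : 1 ≤ n := (le_max_right _ _).trans hn
  have hn' : (0 : ℝ) < n := by exact_mod_cast h3
  rw [Real.dist_eq, sub_zero, abs_of_nonneg (by positivity), div_lt_iff₀ hn']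
  have h4 : ((Finset.Ioc 0 n).filter (· ∈ AA L)).card ≤ ((Finset.range (n + 1)).filter (· ∈ AA L)).card := by
    refine Finset.card_le_card (Finset.filter_subset_filter _ ?_)
    intro x hx
    rw [Finset.mem_Ioc] at hx
    rw [Finset.mem_range]
    omega
  have h5 := elements_bound (L := L) hC J (n + 1) (by omega)
  have h6 : (((Finset.Ioc 0 n).filter (· ∈ AA L)).card : ℝ) ≤ NN L J + 4 / (J + 1) * ((n : ℝ) + 1) := by
    refine le_trans (by exact_mod_cast h4) (h5.trans ?_)
    push_cast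
    exact le_rfl
  have hJ0 : (0 : ℝ) ≤ J := Nat.cast_nonneg J
  have h7 : 4 / ((J : ℝ) + 1) < ε / 2 := by
    rw [div_lt_iff₀ (by positivity)]
    rw [div_lt_iff₀ hε] at hJ
    nlinarith
  have h8 : 4 / ((J : ℝ) + 1) ≤ 4 := by
    rw [div_le_iff₀ (by positivity)]
    nlinarith
  have h9 : (n0 : ℝ) ≤ n := by exact_mod_cast h1
  rw [div_lt_iff₀ hε] at hn0
  nlinarith

open scoped Classical in
theorem uncovered_bound (hC : 2 ≤ C) (B : Set ℕ) (h0 : 0 ∈ B)
    (hB : ∀ n, g n ≤ ((Finset.Ioc 0 n).filter (· ∈ B)).card) (n : ℕ) :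
    (((Finset.range n).filter fun x => x ∉ AA L + B).card : ℝ) ≤ 3 / C * n := by
  have hC' : (0 : ℝ) < C := by exact_mod_cast (by omega : 0 < C)
  have hzero : ∀ m, m ≤ NN L 0 → (((Finset.range m).filter fun x => x ∉ AA L + B).card : ℝ) = 0 := by
    intro m hm
    rw [Nat.cast_eq_zero, Finset.card_eq_zero, Finset.filter_eq_empty_iff]
    intro x hx
    rw [Finset.mem_range] at hx
    push Not
    exact ⟨x, Or.inl (by omega), 0, h0, by simp⟩
  rcases le_or_gt n (NN L 0) with hn | hn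
  · rw [hzero n hn]
    positivity
  obtain ⟨j, hj, h1, h2⟩ := exists_level (L := L) (by omega : 1 ≤ C) hn.le
  have hb := block (fun x => x ∉ AA L + B) (NN L) (2 / C) (fun j => (((L j).M : ℝ) + ((L j).q : ℝ) ^ 2))
    (fun j => by positivity) NN_mono 0 (fun j hj n h1 h2 => uncovered_level hC B hB j n h1 h2) j hj n h1 h2.le
  rw [sum_e (by omega), hzero _ le_rfl] at hb
  have e2 : (NN L j : ℝ) / (C * (j + 1)) ≤ n / C := by
    apply div_le_div₀ (Nat.cast_nonneg _) (by exact_mod_cast h1) (by positivity)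
    have : (0 : ℝ) ≤ j := Nat.cast_nonneg j
    nlinarith
  have e3 : 2 / (C : ℝ) * ((n : ℝ) - NN L 0) ≤ 2 / (C : ℝ) * n := by
    refine mul_le_mul_of_nonneg_left ?_ (by positivity)
    have : (0 : ℝ) ≤ NN L 0 := Nat.cast_nonneg _
    linarith
  have e4 : 3 / (C : ℝ) * n = 2 / (C : ℝ) * n + n / C := by ring
  rw [e4]
  linarith

end

open scoped Classical in
/-- the Schnirelmann density of a set with few missing elements -/
theorem le_schnirelmann (S : Set ℕ) (ε : ℝ)
    (h : ∀ n : ℕ, 0 < n → (((Finset.Ioc 0 n).filter (· ∉ S)).card : ℝ) ≤ ε * n) :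
    1 - ε ≤ schnirelmannDensity S := by
  refine le_schnirelmannDensity_iff.2 fun n hn => ?_
  have hn' : (0 : ℝ) < n := by exact_mod_cast hn
  rw [le_div_iff₀ hn']
  have h1 := Finset.card_filter_add_card_filter_not (s := Finset.Ioc 0 n) (fun x => x ∈ S)
  rw [Nat.card_Ioc, Nat.sub_zero] at h1
  have h2 : ((((Finset.Ioc 0 n).filter (· ∈ S)).card : ℕ) : ℝ) + (((Finset.Ioc 0 n).filter (· ∉ S)).card : ℝ) = n := by
    exact_mod_cast h1
  have := h n hn
  linarith

open scoped Classical in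
/-- **part (i)** -/
theorem exists_good (g : ℕ → ℕ) (hg : Tendsto g atTop atTop) (ε : ℝ) (hε : 0 < ε) :
    ∃ A : Set ℕ, 0 ∈ A ∧ A ≠ {0, 1} ∪ {p | p.Prime} ∧
      Tendsto (fun n : ℕ => (((Finset.Ioc 0 n).filter (· ∈ A)).card : ℝ) / n) atTop (𝓝 0) ∧
      ∀ B : Set ℕ, 0 ∈ B → (∀ n, g n ≤ ((Finset.Ioc 0 n).filter (· ∈ B)).card) →
        1 - ε ≤ schnirelmannDensity (A + B) := by
  obtain ⟨C0, hC0⟩ := exists_nat_gt (6 / ε)
  set C := C0 + 2 with hC
  have L : ∀ j, Lev g C j := fun j => (exists_lev g hg C j).some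
  have hN0 : 9 ≤ NN L 0 := by
    have := NN_ge (L := L) (by omega : 1 ≤ C) 0
    omega
  refine ⟨AA L, Or.inl (by omega), ?_, zero_density (by omega), fun B h0 hB => ?_⟩
  · intro h
    have h4 : (4 : ℕ) ∈ AA L := Or.inl (by omega)
    rw [h] at h4
    rcases h4 with h4 | h4
    · rcases h4 with h4 | h4
      · exact absurd h4 (by norm_num)
      · exact absurd h4 (by norm_num)
    · exact absurd h4 (by
        show ¬ Nat.Prime 4
        norm_num)
  · refine le_schnirelmann _ _ fun n hn => ?_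
    have h1 := uncovered_bound (L := L) (by omega : 2 ≤ C) B h0 hB (n + 1)
    have h2 : ((Finset.Ioc 0 n).filter (· ∉ AA L + B)).card ≤ ((Finset.range (n + 1)).filter (· ∉ AA L + B)).card := by
      refine Finset.card_le_card (Finset.filter_subset_filter _ ?_)
      intro x hx
      rw [Finset.mem_Ioc] at hx
      rw [Finset.mem_range]
      omega
    have h3 : (((Finset.Ioc 0 n).filter (· ∉ AA L + B)).card : ℝ) ≤ 3 / C * ((n : ℝ) + 1) := by
      refine le_trans (by exact_mod_cast h2) (h1.trans ?_)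
      push_cast
      exact le_rfl
    refine h3.trans ?_
    have hC' : (0 : ℝ) < C := by exact_mod_cast (by omega : 0 < C)
    have h5 : (6 : ℝ) / ε < C := hC0.trans_le (by rw [hC]; push_cast; linarith)
    rw [div_lt_iff₀ hε] at h5
    have hn' : (1 : ℝ) ≤ n := by exact_mod_cast hn
    rw [div_mul_eq_mul_div, div_le_iff₀ hC']
    nlinarith

end Pool.Agent.KS6_53.St
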