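import Pool.Agent.KS6_53.St.S4

set_option autoImplicit false

namespace Pool.Agent.KS6_53.St

open Finset Filter Topology
open scoped Pointwise

/-- `B` contains `0` and every nonnegative integer is the sum of `h` elements of `B` -/
def IsBasis (h : ℕ) (B : Set ℕ) : Prop :=
  0 ∈ B ∧ ∀ n : ℕ, ∃ f : Fin h → ℕ, (∀ i, f i ∈ B) ∧ ∑ i, f i = n

open scoped Classical in
theorem basis_count {h : ℕ} {B : Set ℕ} (hB : IsBasis h B) (n : ℕ) :
    n + 1 ≤ (((Finset.Ioc 0 n).filter (· ∈ B)).card + 1) ^ h := by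
  set T : Finset ℕ := (Finset.range (n + 1)).filter (· ∈ B) with hT
  have h1 : T.card ≤ ((Finset.Ioc 0 n).filter (· ∈ B)).card + 1 := by
    have : T ⊆ insert 0 ((Finset.Ioc 0 n).filter (· ∈ B)) := by
      intro x hx
      rw [hT, Finset.mem_filter, Finset.mem_range] at hx
      rw [Finset.mem_insert, Finset.mem_filter, Finset.mem_Ioc]
      rcases Nat.eq_zero_or_pos x with h | h
      · exact Or.inl h
      · exact Or.inr ⟨⟨h, by omega⟩, hx.2⟩
    exact (Finset.card_le_card this).trans (Finset.card_insert_le _ _)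
  have h2 : (Fintype.piFinset fun _ : Fin h => T).card = T.card ^ h := by
    rw [Fintype.card_piFinset]
    simp
  have h3 : Finset.range (n + 1) ⊆ (Fintype.piFinset fun _ : Fin h => T).image fun f => ∑ i, f i := by
    intro m hm
    rw [Finset.mem_range] at hm
    obtain ⟨f, hf, hfs⟩ := hB.2 m
    rw [Finset.mem_image]
    refine ⟨f, ?_, hfs⟩
    rw [Fintype.mem_piFinset]
    intro i
    rw [hT, Finset.mem_filter, Finset.mem_range]
    refine ⟨?_, hf i⟩
    have := Finset.single_le_sum (f := f) (fun i _ => Nat.zero_le _) (Finset.mem_univ i)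
    omega
  have h4 := (Finset.card_le_card h3).trans Finset.card_image_le
  rw [Finset.card_range, h2] at h4
  exact h4.trans (Nat.pow_le_pow_left h1 h)

/-- the minimal growth of a basis of order `h` -/
noncomputable def gh (h n : ℕ) : ℕ := sInf {c | n + 1 ≤ (c + 1) ^ h}

theorem gh_tendsto {h : ℕ} (hh : 1 ≤ h) : Tendsto (gh h) atTop atTop := by
  rw [tendsto_atTop]
  intro K
  filter_upwards [eventually_ge_atTop (K ^ h)] with n hn
  have hne : {c | n + 1 ≤ (c + 1) ^ h}.Nonempty :=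
    ⟨n, Nat.le_self_pow (by omega) _⟩
  have h1 : n + 1 ≤ (gh h n + 1) ^ h := Nat.sInf_mem hne
  by_contra hlt
  push Not at hlt
  have h2 : (gh h n + 1) ^ h ≤ K ^ h := Nat.pow_le_pow_left (by omega) h
  omega

open scoped Classical in
theorem gh_le {h : ℕ} {B : Set ℕ} (hB : IsBasis h B) (n : ℕ) :
    gh h n ≤ ((Finset.Ioc 0 n).filter (· ∈ B)).card := Nat.sInf_le (basis_count hB n)

/-- a basis of order two is a basis of every order at least two -/
theorem isBasis_of_two {h : ℕ} (hh : 2 ≤ h) {B : Set ℕ} (h0 : 0 ∈ B)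
    (hB : ∀ n : ℕ, ∃ b ∈ B, ∃ b' ∈ B, b + b' = n) : IsBasis h B := by
  refine ⟨h0, fun n => ?_⟩
  obtain ⟨b, hb, b', hb', hn⟩ := hB n
  obtain ⟨k, rfl⟩ : ∃ k, h = k + 1 + 1 := ⟨h - 2, by omega⟩
  refine ⟨Fin.cons b (Fin.cons b' fun _ => 0), ?_, ?_⟩
  · intro i
    refine Fin.cases ?_ (fun i => ?_) i
    · simpa using hb
    · rw [Fin.cons_succ]
      refine Fin.cases ?_ (fun i => ?_) i
      · simpa using hb'
      · simpa using h0
  · rw [Fin.sum_univ_succ, Fin.sum_univ_succ]
    simp [hn]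

open scoped Classical in
/-- the record lemma -/
theorem record (A : Set ℕ)
    (hA : Tendsto (fun n : ℕ => (((Finset.Ioc 0 n).filter (· ∈ A)).card : ℝ) / n) atTop (𝓝 0))
    (δ : ℝ) (hδ : 0 < δ) (N0 : ℕ) :
    ∃ n, N0 ≤ n ∧ ∀ k, k < n → (((Finset.Ioc k n).filter (· ∈ A)).card : ℝ) < δ * ((n : ℝ) - k) := by
  by_contra hcon
  push Not at hcon
  have key : ∀ n : ℕ, δ * ((n : ℝ) - N0) ≤ (((Finset.Ioc 0 n).filter (· ∈ A)).card : ℝ) := by
    intro n
    induction n using Nat.strong_induction_on with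
    | _ n ih =>
      rcases lt_or_ge n N0 with h | h
      · have : (n : ℝ) < N0 := by exact_mod_cast h
        have h1 : δ * ((n : ℝ) - N0) ≤ 0 := mul_nonpos_of_nonneg_of_nonpos hδ.le (by linarith)
        exact h1.trans (Nat.cast_nonneg _)
      · obtain ⟨k, hk, h1⟩ := hcon n h
        have h2 := ih k hk
        have e : Finset.Ioc 0 n = Finset.Ioc 0 k ∪ Finset.Ioc k n := by
          rw [Finset.Ioc_union_Ioc_eq_Ioc (Nat.zero_le _) hk.le]
        rw [e, Finset.filter_union, Finset.card_union_of_disjoint]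
        · push_cast
          nlinarith
        · exact Finset.disjoint_filter_filter (Finset.Ioc_disjoint_Ioc_of_le le_rfl)
  rw [Metric.tendsto_atTop] at hA
  obtain ⟨N1, hN1⟩ := hA (δ / 2) (by positivity)
  have h1 := hN1 (N1 + 2 * N0 + 1) (by omega)
  have h2 := key (N1 + 2 * N0 + 1)
  have hpos : (0 : ℝ) < ((N1 + 2 * N0 + 1 : ℕ) : ℝ) := by exact_mod_cast Nat.succ_pos _
  rw [Real.dist_eq, sub_zero, abs_of_nonneg (by positivity), div_lt_iff₀ hpos] at h1
  push_cast at h1 h2 hpos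
  nlinarith [(Nat.cast_nonneg N1 : (0 : ℝ) ≤ N1)]

end Pool.Agent.KS6_53.St
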