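import Pool.Agent.KS6_53.St.S5

set_option autoImplicit false

namespace Pool.Agent.KS6_53.St

open Finset Filter Topology
open scoped Pointwise

theorem geom (m : ℕ) : ∑ i ∈ Finset.range m, (1 : ℝ) / 4 ^ (i + 2) ≤ 1 / 12 := by
  have h : ∀ m : ℕ, ∑ i ∈ Finset.range m, (1 : ℝ) / 4 ^ (i + 2) = 1 / 12 * (1 - 1 / 4 ^ m) := by
    intro m
    induction m with
    | zero => simp
    | succ m ih =>
      rw [Finset.sum_range_succ, ih, pow_succ, pow_add]
      field_simp
      ring
  rw [h]
  have : (0 : ℝ) < 1 / 4 ^ m := by positivity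
  linarith

open scoped Classical in
/-- **part (ii)** -/
theorem exists_basis (A : Set ℕ)
    (hA : Tendsto (fun n : ℕ => (((Finset.Ioc 0 n).filter (· ∈ A)).card : ℝ) / n) atTop (𝓝 0)) :
    ∃ B : Set ℕ, 0 ∈ B ∧ (∀ n : ℕ, ∃ b ∈ B, ∃ b' ∈ B, b + b' = n) ∧ ((A + B)ᶜ).Infinite := by
  have hrec : ∀ i : ℕ, ∃ n, 8 * (i + 1) ≤ n ∧ ∀ k, k < n →
      (((Finset.Ioc k n).filter (· ∈ A)).card : ℝ) < 1 / 4 ^ (i + 2) * ((n : ℝ) - k) :=
    fun i => record A hA _ (by positivity) _
  choose n hn1 hn2 using hrec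
  set B : Set ℕ := {b | ∀ i, ∀ a ∈ A, a + b ≠ n i} with hB
  -- the bad numbers
  set bad : ℕ → ℕ → Finset ℕ := fun m i => (Finset.range (m + 1)).filter fun b => ∃ a ∈ A, a + b = n i with hbad
  have hc : ∀ m i, (((bad m i).card : ℕ) : ℝ) ≤ 1 / 4 ^ (i + 2) * ((m : ℝ) + 1) + (if n i ≤ m then 1 else 0) := by
    intro m i
    have hinj : ∀ T : Finset ℕ, (∀ b ∈ bad m i, n i - b ∈ T) → (bad m i).card ≤ T.card := by
      intro T hT
      refine Finset.card_le_card_of_injOn (fun b => n i - b) (fun b hb => hT b hb) ?_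
      intro x hx y hy hxy
      rw [hbad, Finset.mem_coe, Finset.mem_filter] at hx hy
      obtain ⟨-, a, -, ha⟩ := hx
      obtain ⟨-, a', -, ha'⟩ := hy
      simp only at hxy
      omega
    split_ifs with h
    · have h1 := hinj (insert 0 ((Finset.Ioc 0 (n i)).filter (· ∈ A))) (by
        intro b hb
        rw [hbad, Finset.mem_filter] at hb
        obtain ⟨-, a, ha, hab⟩ := hb
        rw [show n i - b = a by omega, Finset.mem_insert, Finset.mem_filter, Finset.mem_Ioc]
        rcases Nat.eq_zero_or_pos a with h | h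
        · exact Or.inl h
        · exact Or.inr ⟨⟨h, by omega⟩, ha⟩)
      have h2 := h1.trans (Finset.card_insert_le _ _)
      have h3 := hn2 i 0 (by have := hn1 i; omega)
      have h4 : (((bad m i).card : ℕ) : ℝ) ≤ (((Finset.Ioc 0 (n i)).filter (· ∈ A)).card : ℝ) + 1 := by
        exact_mod_cast h2
      have h5 : (n i : ℝ) ≤ m := by exact_mod_cast h
      have h6 : (0 : ℝ) < 1 / 4 ^ (i + 2) := by positivity
      push_cast at h3
      nlinarith
    · have h1 := hinj ((Finset.Ioc (n i - (m + 1)) (n i)).filter (· ∈ A)) (by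
        intro b hb
        rw [hbad, Finset.mem_filter, Finset.mem_range] at hb
        obtain ⟨hb1, a, ha, hab⟩ := hb
        rw [show n i - b = a by omega, Finset.mem_filter, Finset.mem_Ioc]
        exact ⟨⟨by omega, by omega⟩, ha⟩)
      have h3 := hn2 i (n i - (m + 1)) (by omega)
      have h4 : (((bad m i).card : ℕ) : ℝ) ≤ (((Finset.Ioc (n i - (m + 1)) (n i)).filter (· ∈ A)).card : ℝ) := by
        exact_mod_cast h1
      rw [Nat.cast_sub (by omega : m + 1 ≤ n i)] at h3
      push_cast at h3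
      have h5 : (1 : ℝ) / 4 ^ (i + 2) * ((n i : ℝ) - ((n i : ℝ) - (m + 1))) = 1 / 4 ^ (i + 2) * ((m : ℝ) + 1) := by
        ring
      linarith
  have hfar : ∀ m i, m ≤ i → bad m i = ∅ := by
    intro m i hi
    have h1 := hc m i
    rw [if_neg (by have := hn1 i; omega), add_zero] at h1
    have h2 : (1 : ℝ) / 4 ^ (i + 2) * ((m : ℝ) + 1) < 1 := by
      rw [div_mul_eq_mul_div, one_mul, div_lt_one (by positivity)]
      have h3 : m + 1 < 4 ^ (i + 2) := by
        have := Nat.lt_pow_self (n := i + 2) (show 1 < 4 by norm_num)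
        omega
      exact_mod_cast h3
    have h4 : (bad m i).card < 1 := by
      have := h1.trans_lt h2
      exact_mod_cast this
    rw [← Finset.card_eq_zero]
    omega
  have htot : ∀ m : ℕ, 2 * ((Finset.range (m + 1)).filter (· ∉ B)).card < m + 1 := by
    intro m
    have h1 : (Finset.range (m + 1)).filter (· ∉ B) ⊆ (Finset.range m).biUnion (bad m) := by
      intro b hb
      rw [Finset.mem_filter] at hb
      obtain ⟨hb1, hb2⟩ := hb
      rw [hB, Set.mem_ofPred_eq] at hb2
      push Not at hb2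
      obtain ⟨i, a, ha, hab⟩ := hb2
      have h2 : b ∈ bad m i := by
        rw [hbad, Finset.mem_filter]
        exact ⟨hb1, a, ha, hab⟩
      rw [Finset.mem_biUnion]
      refine ⟨i, ?_, h2⟩
      rw [Finset.mem_range]
      by_contra h3
      rw [hfar m i (by omega)] at h2
      exact absurd h2 (Finset.notMem_empty _)
    have h2 := (Finset.card_le_card h1).trans Finset.card_biUnion_le
    have h3 : (((∑ i ∈ Finset.range m, (bad m i).card : ℕ)) : ℝ) ≤ ((m : ℝ) + 1) / 12 + (m : ℝ) / 8 := by
      push_cast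
      refine (Finset.sum_le_sum fun i _ => hc m i).trans ?_
      rw [Finset.sum_add_distrib, ← Finset.sum_mul]
      have h4 := mul_le_mul_of_nonneg_right (geom m) (show (0 : ℝ) ≤ (m : ℝ) + 1 by positivity)
      have h5 : ∑ i ∈ Finset.range m, (if n i ≤ m then (1 : ℝ) else 0) ≤ (m : ℝ) / 8 := by
        rw [← Finset.sum_filter, Finset.sum_const, nsmul_eq_mul, mul_one]
        have h6 : ((Finset.range m).filter fun i => n i ≤ m) ⊆ Finset.range (m / 8) := by
          intro i hi
          rw [Finset.mem_filter] at hi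
          rw [Finset.mem_range]
          have := hn1 i
          omega
        have h7 := Finset.card_le_card h6
        rw [Finset.card_range] at h7
        have h8 : ((m / 8 : ℕ) : ℝ) ≤ (m : ℝ) / 8 := by
          have := @Nat.cast_div_le ℝ _ _ _ m 8
          exact_mod_cast this
        have h9 : ((((Finset.range m).filter fun i => n i ≤ m).card : ℕ) : ℝ) ≤ ((m / 8 : ℕ) : ℝ) := by
          exact_mod_cast h7
        linarith
      linarith
    have h4 : ((((Finset.range (m + 1)).filter (· ∉ B)).card : ℕ) : ℝ) ≤ ((∑ i ∈ Finset.range m, (bad m i).card : ℕ) : ℝ) := by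
      exact_mod_cast h2
    have h5 : (2 : ℝ) * ((((Finset.range (m + 1)).filter (· ∉ B)).card : ℕ) : ℝ) < (m : ℝ) + 1 := by
      have : (0 : ℝ) ≤ m := Nat.cast_nonneg m
      linarith
    exact_mod_cast h5
  have hsum : ∀ m : ℕ, ∃ b ∈ B, ∃ b' ∈ B, b + b' = m := by
    intro m
    set Bd := (Finset.range (m + 1)).filter (· ∉ B) with hBd
    have h1 : (Bd ∪ Bd.image fun b => m - b).card < (Finset.range (m + 1)).card := by
      rw [Finset.card_range]
      have h5 : 2 * Bd.card < m + 1 := htot m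
      have h2 := Finset.card_union_le Bd (Bd.image fun b => m - b)
      have h3 : (Bd.image fun b => m - b).card ≤ Bd.card := Finset.card_image_le
      omega
    obtain ⟨b, hb1, hb2⟩ := Finset.exists_mem_notMem_of_card_lt_card h1
    rw [Finset.mem_union, Finset.mem_image] at hb2
    push Not at hb2
    obtain ⟨h3, h4⟩ := hb2
    have hbm := Finset.mem_range.1 hb1
    refine ⟨b, ?_, m - b, ?_, by omega⟩
    · by_contra h
      exact h3 (by rw [hBd, Finset.mem_filter]; exact ⟨hb1, h⟩)
    · by_contra h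
      refine h4 (m - b) ?_ (by omega)
      rw [hBd, Finset.mem_filter, Finset.mem_range]
      exact ⟨by omega, h⟩
  refine ⟨B, ?_, hsum, ?_⟩
  · obtain ⟨b, hb, b', hb', h⟩ := hsum 0
    have : b = 0 := by omega
    rwa [this] at hb
  · refine Set.infinite_of_not_bddAbove fun ⟨K, hK⟩ => ?_
    have h1 : n K ∈ (A + B)ᶜ := by
      rintro ⟨a, ha, b, hb, hab⟩
      exact hb K a ha hab
    have := hK h1
    have := hn1 K
    omega

end Pool.Agent.KS6_53.St
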